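import Mathlib.Data.Sym.Card
import Pool.Agent.Y113.MT.AStm

/-!
# DIM: the number of symplectic factors which act faithfully
-/

set_option autoImplicit false

open Matrix

namespace Pool.Agent.Y815.MT.DimA

open Pool.Agent.Y113.MT

/-- tuples of symmetric matrices, times `J` -/
noncomputable def FF (k n : ℕ) (J : Matrix (Fin n) (Fin n) ℚ) :
    ((Fin k × Sym2 (Fin n)) → ℚ) →ₗ[ℚ] (Fin k → Matrix (Fin n) (Fin n) ℚ) where
  toFun x i := (Matrix.of fun a b => x (i, s(a, b))) * J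
  map_add' x y := by
    funext i
    show (Matrix.of fun a b => (x + y) (i, s(a, b))) * J =
      (Matrix.of fun a b => x (i, s(a, b))) * J + (Matrix.of fun a b => y (i, s(a, b))) * J
    rw [← add_mul]
    rfl
  map_smul' c x := by
    funext i
    show (Matrix.of fun a b => (c • x) (i, s(a, b))) * J =
      c • ((Matrix.of fun a b => x (i, s(a, b))) * J)
    rw [← Matrix.smul_mul]
    rfl

theorem FF_apply (k n : ℕ) (J : Matrix (Fin n) (Fin n) ℚ) (x : (Fin k × Sym2 (Fin n)) → ℚ)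
    (i : Fin k) : FF k n J x i = (Matrix.of fun a b => x (i, s(a, b))) * J := rfl

theorem FF_inj {k n : ℕ} {A : Matrix (Fin n) (Fin n) ℚ} (hA : A.det ≠ 0) :
    Function.Injective (FF k n A⁻¹) := by
  have hu : IsUnit A.det := isUnit_iff_ne_zero.2 hA
  rw [injective_iff_map_eq_zero]
  intro x hx
  funext p
  obtain ⟨i, z⟩ := p
  induction z using Sym2.ind with
  | h a b =>
    have h1 : (Matrix.of fun a b => x (i, s(a, b))) * A⁻¹ = 0 := by
      rw [← FF_apply, hx]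
      rfl
    have h2 : (Matrix.of fun a b => x (i, s(a, b))) * A⁻¹ * A = 0 := by
      rw [h1, zero_mul]
    rw [Matrix.mul_assoc, Matrix.nonsing_inv_mul _ hu, Matrix.mul_one] at h2
    have h3 := congrFun (congrFun h2 a) b
    exact h3

theorem FF_sp {k n : ℕ} {A : Matrix (Fin n) (Fin n) ℚ} (hT : Aᵀ = -A) (hA : A.det ≠ 0)
    (x : (Fin k × Sym2 (Fin n)) → ℚ) (i : Fin k) :
    FF k n A⁻¹ x i * A + A * (FF k n A⁻¹ x i)ᵀ = 0 := by
  have hu : IsUnit A.det := isUnit_iff_ne_zero.2 hA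
  obtain ⟨S, hS⟩ : ∃ S : Matrix (Fin n) (Fin n) ℚ, S = Matrix.of fun a b => x (i, s(a, b)) :=
    ⟨_, rfl⟩
  have hST : Sᵀ = S := by
    rw [hS]
    ext a b
    show x (i, s(b, a)) = x (i, s(a, b))
    rw [Sym2.eq_swap]
  have hI : A * (A⁻¹)ᵀ = -1 := by
    have h1 : (A⁻¹ * A)ᵀ = 1 := by rw [Matrix.nonsing_inv_mul _ hu, Matrix.transpose_one]
    rw [Matrix.transpose_mul, hT, Matrix.neg_mul] at h1
    rw [← h1, neg_neg]
  rw [FF_apply, ← hS, Matrix.mul_assoc, Matrix.nonsing_inv_mul _ hu, Matrix.mul_one,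
    Matrix.transpose_mul, hST, ← Matrix.mul_assoc, hI, Matrix.neg_mul, Matrix.one_mul,
    add_neg_cancel]

theorem dim : S_DIM := by
  intro k n N A hT hA 𝔪 h1 h2
  obtain ⟨m', hm'⟩ : ∃ m' : Submodule ℚ
      ((Fin k → Matrix (Fin n) (Fin n) ℚ) × Matrix (Fin N) (Fin N) ℚ),
      m' = 𝔪 ⊓ (LinearMap.range (FF k n A⁻¹)).comap (LinearMap.fst ℚ _ _) := ⟨_, rfl⟩
  have hmem : ∀ Y, Y ∈ m' ↔ Y ∈ 𝔪 ∧ ∃ x, FF k n A⁻¹ x = Y.1 := by
    intro Y
    rw [hm']
    exact Iff.rfl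
  -- the second projection is injective
  have hinj : Function.Injective ((LinearMap.snd ℚ (Fin k → Matrix (Fin n) (Fin n) ℚ)
      (Matrix (Fin N) (Fin N) ℚ)).domRestrict m') := by
    rw [injective_iff_map_eq_zero]
    rintro ⟨Y, hY⟩ h0
    have h0' : Y.2 = 0 := h0
    obtain ⟨hY1, x, hx⟩ := (hmem Y).1 hY
    have h3 : Y.1 = 0 := h2 Y hY1 (fun i => by rw [← hx]; exact FF_sp hT hA x i) h0'
    apply Subtype.ext
    exact Prod.ext h3 h0'
  have hle := LinearMap.finrank_le_finrank_of_injective hinj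
  -- the first projection is onto the range
  have hsub : LinearMap.range (FF k n A⁻¹) ≤ m'.map (LinearMap.fst ℚ _ _) := by
    rintro X ⟨x, rfl⟩
    obtain ⟨Y, hY, hYX⟩ := h1 (FF k n A⁻¹ x) (fun i => FF_sp hT hA x i)
    exact ⟨Y, (hmem Y).2 ⟨hY, x, hYX.symm⟩, hYX⟩
  have hle2 := (Submodule.finrank_mono hsub).trans (Submodule.finrank_map_le _ m')
  rw [LinearMap.finrank_range_of_inj (FF_inj hA), Module.finrank_fintype_fun_eq_card,
    Fintype.card_prod, Fintype.card_fin, Sym2.card, Fintype.card_fin] at hle2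
  rw [Module.finrank_matrix, Module.finrank_self, Fintype.card_fin, mul_one] at hle
  rw [pow_two]
  exact hle2.trans hle

end Pool.Agent.Y815.MT.DimA
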